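import Pool.Agent.H6.SQ.Rows

/-!
# Lines which bound three half-planes
-/

set_option autoImplicit false

namespace Pool.Agent.H6.SQ

open Function Set
open scoped Pointwise

variable {V : Type*} {G : Type*} [Group G] [MulAction G V] {Γ : SimpleGraph V}

/-- the upper half-plane of `h` is a limit of pieces of translates of `f` -/
def UL (G : Type*) {V : Type*} [Group G] [MulAction G V] (f h : ℤ × ℤ → V) : Prop :=
  ∀ R : ℕ, ∃ (g : G) (b : ℤ × ℤ), ∀ z : ℤ × ℤ, z.1.natAbs ≤ R → 0 ≤ z.2 → z.2 ≤ R →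
    h z = g • f (z + b)

/-- pairs of flats which separate exactly at the row `0` -/
structure Br (G : Type*) [Group G] [MulAction G V] (Γ : SimpleGraph V)
    (f h k : ℤ × ℤ → V) : Prop where
  hh : IsFlat Γ h
  hk : IsFlat Γ k
  ag : ∀ x y : ℤ, y ≤ 0 → h (x, y) = k (x, y)
  ne : ∀ x : ℤ, h (x, 1) ≠ k (x, 1)
  uh : UL G f h
  uk : UL G f k

theorem UL.mv {f h : ℤ × ℤ → V} (hu : UL G f h) (g : G) (a : ℤ) (b : ℕ) :
    UL G f (fun z => g • h (z + (a, (b : ℤ)))) := by
  intro R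
  obtain ⟨g', c, hg⟩ := hu (R + a.natAbs + b)
  refine ⟨g * g', (a, (b : ℤ)) + c, fun z h1 h2 h3 => ?_⟩
  simp only []
  rw [hg _ (by show (z.1 + a).natAbs ≤ _; omega) (by show 0 ≤ z.2 + (b : ℤ); omega)
    (by show z.2 + (b : ℤ) ≤ ((R + a.natAbs + b : ℕ) : ℤ); omega), mul_smul, add_assoc]

theorem Br.mk' (hA : Act G Γ) {f h k : ℤ × ℤ → V} (hh : IsFlat Γ h) (hk : IsFlat Γ k)
    (ag : ∀ x y : ℤ, y ≤ 0 → h (x, y) = k (x, y)) (x0 : ℤ) (ne : h (x0, 1) ≠ k (x0, 1))
    (uh : UL G f h) (uk : UL G f k) : Br G Γ f h k :=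
  ⟨hh, hk, ag, fun x hx => ne (row_prop hA.med hh hk (y := 0) (y' := 1) (by simp)
    Set.ordConnected_univ (fun x _ => ag x 0 le_rfl) (Set.mem_univ x) hx x0 (Set.mem_univ _)), uh, uk⟩

theorem Br.mv (hA : Act G Γ) {f h k : ℤ × ℤ → V} (hb : Br G Γ f h k) (g : G) (a : ℤ) :
    Br G Γ f (fun z => g • h (z + (a, 0))) (fun z => g • k (z + (a, 0))) where
  hh := hb.hh.smul hA g _
  hk := hb.hk.smul hA g _
  ag := fun x y hy => by
    simp only [Prod.mk_add_mk, add_zero]
    rw [hb.ag _ y hy]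
  ne := fun x => by
    simp only [Prod.mk_add_mk, add_zero]
    exact fun e => hb.ne _ (smul_left_cancel g e)
  uh := by simpa using hb.uh.mv g a 0
  uk := by simpa using hb.uk.mv g a 0

/-- the lines along which two flats separate -/
def BL (G : Type*) [Group G] [MulAction G V] (Γ : SimpleGraph V) (f : ℤ × ℤ → V) : Set (ℤ → V) :=
  {l | ∃ h k : ℤ × ℤ → V, Br G Γ f h k ∧ ∀ x, l x = h (x, 0)}

theorem BL.sys (hA : Act G Γ) (f : ℤ × ℤ → V) : LSys G Γ (BL G Γ f) where
  geo := by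
    rintro l ⟨h, k, hb, hl⟩ a b
    rw [hl, hl, hb.hh]
    simp
  mv := by
    rintro l ⟨h, k, hb, hl⟩ g b
    exact ⟨_, _, hb.mv hA g b, fun x => by simp only [hl, Prod.mk_add_mk, add_zero]⟩
  clo := by
    intro l hl
    choose l' hl' hag using hl
    choose h k hb hlh using hl'
    obtain ⟨F, hF⟩ := cluster (fun n z => (h n z, k n z))
      (fun z : ℤ × ℤ => {w | Γ.dist (l 0) w ≤ z.1.natAbs + z.2.natAbs} ×ˢ
        {w | Γ.dist (l 0) w ≤ z.1.natAbs + z.2.natAbs})
      (fun z => (hA.ball _ _).prod (hA.ball _ _)) (fun n z => by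
        have e1 : l 0 = h n (0, 0) := by rw [hag n 0 (by simp), hlh]
        have e2 : l 0 = k n (0, 0) := by rw [e1, (hb n).ag 0 0 le_rfl]
        constructor
        · have := (hb n).hh (0, 0) z
          simp only [zero_sub, abs_neg, Int.abs_eq_natAbs] at this
          simp only [Set.mem_ofPred_eq]
          rw [e1]
          omega
        · have := (hb n).hk (0, 0) z
          simp only [zero_sub, abs_neg, Int.abs_eq_natAbs] at this
          simp only [Set.mem_ofPred_eq]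
          rw [e2]
          omega)
    have key : ∀ R N : ℕ, ∃ n, N ≤ n ∧ ∀ z : ℤ × ℤ, z.1.natAbs ≤ R → z.2.natAbs ≤ R →
        (F z).1 = h n z ∧ (F z).2 = k n z := by
      intro R N
      obtain ⟨n, hn, hn2⟩ := hF _ (win_finite R) N
      refine ⟨n, hn, fun z h1 h2 => ?_⟩
      rw [← hn2 z ⟨h1, h2⟩]
      exact ⟨rfl, rfl⟩
    have flat1 : IsFlat Γ (fun z => (F z).1) := by
      intro z w
      obtain ⟨n, _, hn⟩ := key (z.1.natAbs + z.2.natAbs + w.1.natAbs + w.2.natAbs) 0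
      simp only []
      rw [(hn z (by omega) (by omega)).1, (hn w (by omega) (by omega)).1]
      exact (hb n).hh z w
    have flat2 : IsFlat Γ (fun z => (F z).2) := by
      intro z w
      obtain ⟨n, _, hn⟩ := key (z.1.natAbs + z.2.natAbs + w.1.natAbs + w.2.natAbs) 0
      simp only []
      rw [(hn z (by omega) (by omega)).2, (hn w (by omega) (by omega)).2]
      exact (hb n).hk z w
    refine ⟨fun z => (F z).1, fun z => (F z).2, Br.mk' hA flat1 flat2 ?_ 0 ?_ ?_ ?_, ?_⟩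
    · intro x y hy
      obtain ⟨n, _, hn⟩ := key (x.natAbs + y.natAbs) 0
      obtain ⟨e1, e2⟩ := hn (x, y) (by simp only []; omega) (by simp only []; omega)
      rw [e1, e2, (hb n).ag x y hy]
    · obtain ⟨n, _, hn⟩ := key 1 0
      obtain ⟨e1, e2⟩ := hn (0, 1) (by simp) (by simp)
      rw [e1, e2]
      exact (hb n).ne 0
    · intro R
      obtain ⟨n, _, hn⟩ := key R 0
      obtain ⟨g, b, hg⟩ := (hb n).uh R
      exact ⟨g, b, fun z h1 h2 h3 => by
        simp only []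
        rw [(hn z h1 (by omega)).1, hg z h1 h2 h3]⟩
    · intro R
      obtain ⟨n, _, hn⟩ := key R 0
      obtain ⟨g, b, hg⟩ := (hb n).uk R
      exact ⟨g, b, fun z h1 h2 h3 => by
        simp only []
        rw [(hn z h1 (by omega)).2, hg z h1 h2 h3]⟩
    · intro x
      obtain ⟨n, hn1, hn⟩ := key x.natAbs x.natAbs
      simp only []
      rw [(hn (x, 0) (by simp) (by simp)).1, ← hlh, hag n x (by omega)]

/-- Let the row `0` of the flat `h` be translated by `g`.  Unless all rows above are translated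
by some power of `g`, the flat and its translate by a power of `g` separate far above. -/
theorem separate (hA : Act G Γ) {h : ℤ × ℤ → V} (hh : IsFlat Γ h) {g : G} {τ : ℤ}
    (hg : ∀ x, g • h (x, 0) = h (x + τ, 0)) (D : ℕ) : ∃ J : ℕ, 0 < J ∧
      (∀ y : ℤ, 0 ≤ y → y ≤ D → ∀ x, g ^ J • h (x, y) = h (x + J * τ, y)) ∧
      ((∀ y : ℤ, 0 ≤ y → ∀ x, g ^ J • h (x, y) = h (x + J * τ, y)) ∨
        ∃ n : ℕ, D ≤ n ∧ (∀ y : ℤ, 0 ≤ y → y ≤ n → ∀ x, g ^ J • h (x, y) = h (x + J * τ, y)) ∧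
          g ^ J • h (0, n + 1) ≠ h (J * τ, n + 1)) := by
  classical
  -- the strips over the row 0
  have hfin : {w : Fin (D + 1) → V | ∀ i, w i ∈ {w | Γ.dist (h (0, 0)) w ≤ D}}.Finite :=
    Set.Finite.pi' fun _ => hA.ball D _
  have h0 : ∀ (j : ℕ) (x : ℤ), g ^ j • h (x - j * τ, 0) = h (x, 0) := by
    intro j x
    rw [tr_pow (l := fun x => h (x, 0)) hg j (x - j * τ)]
    simp
  obtain ⟨j, -, j', -, hne, heq⟩ := Set.infinite_univ.exists_ne_map_eq_of_mapsTo
    (f := fun (j : ℕ) (i : Fin (D + 1)) => g ^ j • h (0 - j * τ, ((i : ℕ) : ℤ)))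
    (t := {w : Fin (D + 1) → V | ∀ i, w i ∈ {w | Γ.dist (h (0, 0)) w ≤ D}}) (fun j _ i => by
      simp only [Set.mem_ofPred_eq]
      rw [← h0 j 0, hA.dist]
      have := hh (0 - j * τ, 0) (0 - j * τ, ((i : ℕ) : ℤ))
      have h2 := i.2
      simp only [sub_self, abs_zero, Int.abs_eq_natAbs] at this
      omega) hfin
  wlog hlt : j < j' generalizing j j'
  · exact this j' j hne.symm heq.symm (by omega)
  obtain ⟨J, rfl⟩ := Nat.exists_eq_add_of_lt hlt
  refine ⟨J + 1, by omega, ?_⟩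
  -- the strip of height `D`
  have hk : IsFlat Γ (fun z => (g ^ (J + 1)) • h (z + (-((J + 1 : ℕ) * τ), 0))) := hh.smul hA _ _
  have hstep : ∀ y : ℤ, 0 ≤ y → (∀ x, g ^ (J + 1) • h (x, y) = h (x + (J + 1 : ℕ) * τ, y)) →
      ∀ x0, g ^ (J + 1) • h (x0, y + 1) = h (x0 + (J + 1 : ℕ) * τ, y + 1) →
      ∀ x, g ^ (J + 1) • h (x, y + 1) = h (x + (J + 1 : ℕ) * τ, y + 1) := by
    intro y hy h1 x0 h2 x
    have := row_prop hA.med hh hk (y := y) (y' := y + 1) (by simp) Set.ordConnected_univ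
      (fun x _ => by
        simp only [Prod.mk_add_mk, add_zero]
        rw [h1]
        congr 2
        ring) (Set.mem_univ (x0 + (J + 1 : ℕ) * τ)) (by
        simp only [Prod.mk_add_mk, add_zero, add_neg_cancel_right]
        rw [h2]) (x + (J + 1 : ℕ) * τ) (Set.mem_univ _)
    simp only [Prod.mk_add_mk, add_zero, add_neg_cancel_right] at this
    exact this.symm
  have hbase : ∀ y : ℕ, y ≤ D → ∀ x, g ^ (J + 1) • h (x, (y : ℤ)) = h (x + (J + 1 : ℕ) * τ, (y : ℤ)) := by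
    intro y
    induction y with
    | zero =>
      intro _ x
      exact tr_pow (l := fun x => h (x, 0)) hg (J + 1) x
    | succ y ih =>
      intro hy
      have e := congrFun heq ⟨y + 1, by omega⟩
      simp only [] at e
      have e2 : g ^ (J + 1) • h (0 - ((j + J + 1 : ℕ) : ℤ) * τ, ((y + 1 : ℕ) : ℤ)) =
          h (0 - ((j + J + 1 : ℕ) : ℤ) * τ + (J + 1 : ℕ) * τ, ((y + 1 : ℕ) : ℤ)) := by
        rw [show j + J + 1 = j + (J + 1) by ring, pow_add, mul_smul] at e
        have e3 := smul_left_cancel _ e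
        rw [show j + J + 1 = j + (J + 1) by ring, ← e3]
        congr 2
        push_cast
        ring
      have := hstep y (by omega) (ih (by omega)) _ (by push_cast at e2 ⊢; exact e2)
      push_cast at this ⊢
      exact this
  refine ⟨fun y h1 h2 x => ?_, ?_⟩
  · obtain ⟨n, rfl⟩ := Int.eq_ofNat_of_zero_le h1
    exact hbase n (by omega) x
  · by_cases hall : ∀ n : ℕ, g ^ (J + 1) • h (0, (n : ℤ) + 1) = h ((J + 1 : ℕ) * τ, (n : ℤ) + 1)
    · left
      intro y hy
      obtain ⟨n, rfl⟩ := Int.eq_ofNat_of_zero_le hy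
      induction n with
      | zero => exact fun x => hbase 0 (by omega) x
      | succ n ih =>
        have := hstep n (by omega) (ih (by omega)) 0 (by rw [hall n, zero_add])
        push_cast at this ⊢
        exact this
    · right
      push Not at hall
      have h1 := Nat.find_spec hall
      have h2 := fun j (hj : j < Nat.find hall) => Nat.find_min hall hj
      set n := Nat.find hall
      have h3 : ∀ y : ℕ, y ≤ n → ∀ x, g ^ (J + 1) • h (x, (y : ℤ)) = h (x + (J + 1 : ℕ) * τ, (y : ℤ)) := by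
        intro y
        induction y with
        | zero => exact fun _ => hbase 0 (by omega)
        | succ y ih =>
          intro hy
          have := hstep y (by omega) (ih (by omega)) 0 (by
            rw [zero_add]
            exact not_not.1 (h2 y (by omega)))
          push_cast at this ⊢
          exact this
      refine ⟨n, ?_, fun y hy1 hy2 x => ?_, h1⟩
      · by_contra hcon
        apply h1
        have := hbase (n + 1) (by omega) 0
        rw [zero_add] at this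
        push_cast at this ⊢
        exact this
      · obtain ⟨m, rfl⟩ := Int.eq_ofNat_of_zero_le hy1
        exact h3 m (by omega) x

/-- The new flat which separates from `h` at the row `n`. -/
theorem new_pair (hA : Act G Γ) {h : ℤ × ℤ → V} (hh : IsFlat Γ h) {g : G} {T : ℤ} {n : ℕ}
    (hn : 1 ≤ n) (h1 : ∀ y : ℤ, 0 ≤ y → y ≤ n → ∀ x, g • h (x, y) = h (x + T, y))
    (h2 : g • h (0, n + 1) ≠ h (T, n + 1)) :
    IsFlat Γ (glue (fun z => g • h (z + (-T, (n : ℤ)))) (fun z => h (z + (0, (n : ℤ))))) ∧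
      ∀ x y : ℤ, y ≤ 0 → glue (fun z => g • h (z + (-T, (n : ℤ)))) (fun z => h (z + (0, (n : ℤ))))
        (x, y) = h (x, y + n) := by
  have f1 : IsFlat Γ (fun z => g • h (z + (-T, (n : ℤ)))) := hh.smul hA _ _
  have f2 : IsFlat Γ (fun z => h (z + (0, (n : ℤ)))) := by simpa using hh.smul hA 1 (0, (n : ℤ))
  have f0 : ∀ x : ℤ, (fun z : ℤ × ℤ => g • h (z + (-T, (n : ℤ)))) (x, 0) =
      (fun z : ℤ × ℤ => h (z + (0, (n : ℤ)))) (x, 0) := by
    intro x
    simp only [Prod.mk_add_mk, add_zero, zero_add]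
    rw [h1 n (by omega) le_rfl]
    congr 2
    ring
  refine ⟨glue_flat hA.med hA.n3 f1 f2 f0 T ?_, fun x y hy => ?_⟩
  · simp only [Prod.mk_add_mk, add_zero, add_neg_cancel]
    have e : h (T, -1 + (n : ℤ)) = g • h (0, -1 + (n : ℤ)) := by
      rw [h1 (-1 + n) (by omega) (by omega), zero_add]
    rw [e]
    intro e2
    have := hh.inj (smul_left_cancel g e2)
    simp only [Prod.mk.injEq] at this
    omega
  · rw [glue_down f0 hy]
    simp

/-- The main theorem about branching lines. -/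
theorem nonper (hA : Act G Γ) (hZ : ¬ ∃ φ : Multiplicative (ℤ × ℤ) →* G, Injective φ)
    {f : ℤ × ℤ → V} (hf : IsFlat Γ f) :
    ∃ l ∈ BL G Γ f, ¬ ∃ g : G, ∃ τ : ℤ, 0 < τ ∧ ∀ x, g • l x = l (x + τ) := by
  by_contra hcon
  push Not at hcon
  have hper : ∀ l ∈ BL G Γ f, ∃ g : G, ∃ τ : ℤ, 0 < τ ∧ ∀ x, g • l x = l (x + τ) := fun l hl => by
    obtain ⟨g, τ, hτ, hg⟩ := hcon l hl
    exact ⟨g, τ, hτ, hg⟩
  obtain ⟨N, hN⟩ := bounded hA (BL.sys hA f) hper
  -- a pair of flats which separate at the row `0`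
  obtain ⟨h, hh, k, hk, hag, hne⟩ := up_pair hA (Orb.sys hA hf) ⟨f, Orb.self f⟩ hZ
  have uorb : ∀ p ∈ Orb G f, UL G f p := fun p hp R => by
    obtain ⟨g, b, hg⟩ := hp R
    exact ⟨g, b, fun z h1 h2 h3 => hg z h1 (by omega)⟩
  have hb : Br G Γ f h k := Br.mk' hA ((Orb.sys hA hf).flat h hh) ((Orb.sys hA hf).flat k hk)
    hag 0 hne (uorb h hh) (uorb k hk)
  obtain ⟨g, τ, hτ, hg⟩ := hper (fun x => h (x, 0)) ⟨h, k, hb, fun x => rfl⟩
  -- only finitely many rows have bounded periods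
  have hfin := fun M : ℕ => many_rows hA hZ hb.hh M
  obtain ⟨D, hD⟩ : ∃ D : ℕ, ∀ y ∈ {y : ℤ | ∃ g : G, ∃ τ : ℤ, 0 < τ ∧ τ ≤ N ∧
      ∀ x, g • h (x, y) = h (x + τ, y)}, y < D := by
    obtain ⟨c, hc⟩ := (hfin N).bddAbove
    exact ⟨c.toNat + 1, fun y hy => by have := hc hy; omega⟩
  obtain ⟨J, hJ, hJ1, hJ2⟩ := separate hA hb.hh hg (D + 1)
  rcases hJ2 with hall | ⟨n, hn, h1, h2⟩
  · -- all rows above are periodic
    have hJτ : 0 < (J : ℤ) * τ := by positivity
    obtain ⟨c, hc⟩ := (hfin ((J : ℤ) * τ).toNat).bddAbove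
    have := hc (show (c.toNat + 1 : ℤ) ∈ _ from
      ⟨g ^ J, J * τ, hJτ, by omega, hall (c.toNat + 1) (by omega)⟩)
    omega
  · obtain ⟨hr, hr2⟩ := new_pair hA hb.hh (by omega) h1 h2
    have f2 : IsFlat Γ (fun z => h (z + (0, (n : ℤ)))) := by
      simpa using hb.hh.smul hA 1 (0, (n : ℤ))
    have hb' : Br G Γ f (fun z => h (z + (0, (n : ℤ))))
        (glue (fun z => g ^ J • h (z + (-((J : ℤ) * τ), (n : ℤ)))) (fun z => h (z + (0, (n : ℤ))))) := by
      refine Br.mk' hA f2 hr (fun x y hy => ?_) ((J : ℤ) * τ) ?_ ?_ ?_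
      · rw [hr2 x y hy]
        simp
      · rw [glue_up (by norm_num)]
        simp only [Prod.mk_add_mk, add_zero, add_neg_cancel]
        rw [add_comm 1 (n : ℤ)]
        exact h2.symm
      · simpa using hb.uh.mv 1 0 n
      · intro R
        obtain ⟨g', b', hg'⟩ := hb.uh.mv (g ^ J) (-((J : ℤ) * τ)) n R
        exact ⟨g', b', fun z h1 h2 h3 => by
          rw [show z = (z.1, z.2) from rfl, glue_up h2]
          exact hg' z h1 h2 h3⟩
    obtain ⟨g', τ', hτ', hN', hg'⟩ := hN _ ⟨_, _, hb', fun x => rfl⟩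
    have := hD n ⟨g', τ', hτ', hN', fun x => by simpa using hg' x⟩
    omega

/-- a flat with a periodic row -/
theorem periodic_rows (hA : Act G Γ) {f : ℤ × ℤ → V} (hf : IsFlat Γ f) {g : G} {τ : ℤ}
    (hτ : 0 < τ) (hg : ∀ x, g • f (x, 0) = f (x + τ, 0)) (y : ℤ) :
    ∃ g : G, ∃ τ : ℤ, 0 < τ ∧ ∀ x, g • f (x, y) = f (x + τ, y) := by
  rcases le_total 0 y with hy | hy
  · obtain ⟨J, hJ, h1, -⟩ := separate hA hf hg y.toNat
    exact ⟨g ^ J, J * τ, by positivity, h1 y hy (by omega)⟩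
  · obtain ⟨J, hJ, h1, -⟩ := separate hA hf.neg2 (g := g) (τ := τ) (by simpa using hg) (-y).toNat
    refine ⟨g ^ J, J * τ, by positivity, fun x => ?_⟩
    have := h1 (-y) (by omega) (by omega) x
    simpa using this

theorem branch_above (hA : Act G Γ) (hZ : ¬ ∃ φ : Multiplicative (ℤ × ℤ) →* G, Injective φ)
    {f : ℤ × ℤ → V} (hf : IsFlat Γ f) {g : G} {τ : ℤ} (hτ : 0 < τ)
    (hg : ∀ x, g • f (x, 0) = f (x + τ, 0)) (H : ℤ) :
    ∃ n : ℤ, H ≤ n ∧ ∃ k : ℤ × ℤ → V, IsFlat Γ k ∧ ∀ z w, f z = k w ↔ z = w ∧ z.2 ≤ n := by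
  obtain ⟨J, hJ, hJ1, hJ2⟩ := separate hA hf hg (H.toNat + 1)
  rcases hJ2 with hall | ⟨n, hn, h1, h2⟩
  · exfalso
    have hJτ : 0 < (J : ℤ) * τ := by positivity
    obtain ⟨c, hc⟩ := (many_rows hA hZ hf ((J : ℤ) * τ).toNat).bddAbove
    have := hc (show (c.toNat + 1 : ℤ) ∈ _ from
      ⟨g ^ J, J * τ, hJτ, by omega, hall (c.toNat + 1) (by omega)⟩)
    omega
  · obtain ⟨hr, hr2⟩ := new_pair hA hf (by omega) h1 h2
    set r := glue (fun z => g ^ J • f (z + (-((J : ℤ) * τ), (n : ℤ)))) (fun z => f (z + (0, (n : ℤ))))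
      with hrdef
    have f2 : IsFlat Γ (fun z => f (z + (0, (n : ℤ)))) := by
      simpa using hf.smul hA 1 (0, (n : ℤ))
    have f3 : IsFlat Γ (fun z => r (z + (0, -(n : ℤ)))) := by
      simpa using hr.smul hA (1 : G) (0, -(n : ℤ))
    refine ⟨n, by omega, _, f3, fun z w => ?_⟩
    have := meet hA.med hA.n3 f2 hr (fun x y hy => by rw [hr2 x y hy]; simp) ((J : ℤ) * τ) (by
        rw [hrdef, glue_up (by norm_num)]
        simp only [Prod.mk_add_mk, add_zero, add_neg_cancel]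
        rw [add_comm 1 (n : ℤ)]
        exact h2.symm) (z + (0, -(n : ℤ))) (w + (0, -(n : ℤ)))
    simp only [add_assoc, Prod.mk_add_mk, add_zero, neg_add_cancel, Prod.mk_zero_zero,
      add_left_inj, Prod.snd_add] at this
    rw [this]
    constructor
    · rintro ⟨h3, h4⟩
      exact ⟨h3, by omega⟩
    · rintro ⟨h3, h4⟩
      exact ⟨h3, by omega⟩

end Pool.Agent.H6.SQ
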