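import Pool.Agent.H6.SQ.Pairs

/-!
# Locally flat maps are flat; gluing of half-planes
-/

set_option autoImplicit false

namespace Pool.Agent.H6.SQ

open Function Set

variable {V : Type*} {Γ : SimpleGraph V}

/-- maps of the grid which are locally flat -/
structure LF (Γ : SimpleGraph V) (r : ℤ × ℤ → V) : Prop where
  hor : ∀ x y, Γ.Adj (r (x, y)) (r (x + 1, y))
  ver : ∀ x y, Γ.Adj (r (x, y)) (r (x, y + 1))
  h2 : ∀ x y, r (x, y) ≠ r (x + 2, y)
  v2 : ∀ x y, r (x, y) ≠ r (x, y + 2)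
  dg : ∀ x y, r (x, y) ≠ r (x + 1, y + 1)
  ad : ∀ x y, r (x, y + 1) ≠ r (x + 1, y)

theorem LF.swap {r : ℤ × ℤ → V} (h : LF Γ r) : LF Γ (fun z => r (z.2, z.1)) where
  hor := fun x y => h.ver y x
  ver := fun x y => h.hor y x
  h2 := fun x y => h.v2 y x
  v2 := fun x y => h.h2 y x
  dg := fun x y => h.dg y x
  ad := fun x y => (h.ad y x).symm

theorem LF.neg1 {r : ℤ × ℤ → V} (h : LF Γ r) : LF Γ (fun z => r (-z.1, z.2)) where
  hor := fun x y => by
    have := (h.hor (-x - 1) y).symm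
    simpa [show -(x + 1) = -x - 1 by ring] using this
  ver := fun x y => h.ver (-x) y
  h2 := fun x y => by
    have := (h.h2 (-x - 2) y).symm
    simpa [show -(x + 2) = -x - 2 by ring] using this
  v2 := fun x y => h.v2 (-x) y
  dg := fun x y => by
    have := (h.ad (-x - 1) y).symm
    simpa [show -(x + 1) = -x - 1 by ring] using this
  ad := fun x y => by
    have := (h.dg (-x - 1) y).symm
    simpa [show -(x + 1) = -x - 1 by ring] using this

theorem LF.no_max (hΓ : IsMedian Γ) (h3 : NoThreeCube Γ) {r : ℤ × ℤ → V} (hr : LF Γ r) (v : V)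
    (x y : ℤ) (h1 : Γ.dist v (r (x, y)) = Γ.dist v (r (x - 1, y)) + 1)
    (h2 : Γ.dist v (r (x, y)) = Γ.dist v (r (x + 1, y)) + 1) : False := by
  have a1 : Γ.Adj (r (x, y)) (r (x - 1, y)) := by
    have := (hr.hor (x - 1) y).symm
    simpa using this
  have a2 : Γ.Adj (r (x, y)) (r (x + 1, y)) := hr.hor x y
  have a3 : Γ.Adj (r (x, y)) (r (x, y + 1)) := hr.ver x y
  have n1 : r (x - 1, y) ≠ r (x + 1, y) := by
    have := hr.h2 (x - 1) y
    rwa [show x - 1 + 2 = x + 1 by ring] at this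
  have n2 : r (x - 1, y) ≠ r (x, y + 1) := by
    have := hr.dg (x - 1) y
    rwa [show x - 1 + 1 = x by ring] at this
  have n3 : r (x + 1, y) ≠ r (x, y + 1) := (hr.ad x y).symm
  obtain ⟨s, s1, s2, s3⟩ := hΓ.quad a1 a2 n1 h1 h2
  refine no_three hΓ h3 a1 a2 a3 n1 n2 n3 s1 s2 ?_ (spr := r (x - 1, y + 1))
    (sqr := r (x + 1, y + 1)) ?_ ?_ ?_ ?_ ?_ ?_
  · rintro rfl
    omega
  · exact hr.ver _ _
  · have := (hr.hor (x - 1) (y + 1)).symm
    rwa [show x - 1 + 1 = x by ring] at this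
  · intro h
    have := hr.ad (x - 1) y
    rw [show x - 1 + 1 = x by ring] at this
    exact this h
  · exact hr.ver _ _
  · exact hr.hor _ _
  · exact fun h => hr.dg x y h.symm

/-- rows are geodesics, and distances grow away from the row of the vertex -/
theorem LF.right (hΓ : IsMedian Γ) (h3 : NoThreeCube Γ) {r : ℤ × ℤ → V} (hr : LF Γ r) (v : V)
    (x y : ℤ) (h : Γ.dist v (r (x, y)) < Γ.dist v (r (x + 1, y))) (n : ℕ) :
    Γ.dist v (r (x + n + 1, y)) = Γ.dist v (r (x + n, y)) + 1 := by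
  induction n with
  | zero =>
    have := hΓ.ne_dist (hr.hor x y) v
    simp only [Nat.cast_zero, add_zero]
    omega
  | succ n ih =>
    have e : x + ((n + 1 : ℕ) : ℤ) = x + n + 1 := by push_cast; ring
    rw [e]
    rcases hΓ.ne_dist (hr.hor (x + n + 1) y) v with h4 | h4
    · exfalso
      refine hr.no_max hΓ h3 v (x + n + 1) y ?_ h4
      rw [show x + (n : ℤ) + 1 - 1 = x + n by ring]
      exact ih
    · exact h4

theorem LF.row (hΓ : IsMedian Γ) (h3 : NoThreeCube Γ) {r : ℤ × ℤ → V} (hr : LF Γ r)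
    (x y : ℤ) (n : ℕ) : Γ.dist (r (x, y)) (r (x + n, y)) = n := by
  have h0 : Γ.dist (r (x, y)) (r (x, y)) < Γ.dist (r (x, y)) (r (x + 1, y)) := by
    rw [SimpleGraph.dist_self, (adj_iff _ _).2 (hr.hor x y)]
    exact Nat.one_pos
  induction n with
  | zero => simp
  | succ n ih =>
    have := hr.right hΓ h3 _ x y h0 n
    rw [show x + ((n + 1 : ℕ) : ℤ) = x + n + 1 by push_cast; ring, this, ih]

/-- opposite edges of a square, in both vertical directions -/
theorem LF.par (hΓ : IsMedian Γ) {r : ℤ × ℤ → V} (hr : LF Γ r) (v : V) (x y : ℤ)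
    (h : Γ.dist v (r (x, y)) < Γ.dist v (r (x + 1, y))) (y' : ℤ) :
    Γ.dist v (r (x, y')) < Γ.dist v (r (x + 1, y')) := by
  have up : ∀ y, Γ.dist v (r (x, y)) < Γ.dist v (r (x + 1, y)) →
      Γ.dist v (r (x, y + 1)) < Γ.dist v (r (x + 1, y + 1)) := fun y h =>
    parallel hΓ (hr.hor x y).symm (hr.hor x (y + 1)).symm (hr.ver (x + 1) y) (hr.ver x y)
      (hr.ad x y).symm (hr.dg x y) h
  have down : ∀ y, Γ.dist v (r (x, y + 1)) < Γ.dist v (r (x + 1, y + 1)) →
      Γ.dist v (r (x, y)) < Γ.dist v (r (x + 1, y)) := fun y h =>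
    parallel hΓ (hr.hor x (y + 1)).symm (hr.hor x y).symm (hr.ver (x + 1) y).symm
      (hr.ver x y).symm (hr.dg x y).symm (hr.ad x y) h
  rcases le_total y y' with hl | hl
  · induction y', hl using Int.leInduction with
    | base => exact h
    | succ n _ ih => exact up n ih
  · induction y', hl using Int.leInductionDown with
    | base => exact h
    | pred n _ ih =>
      apply down (n - 1)
      rw [show n - 1 + 1 = n by ring]
      exact ih

theorem LF.quadrant (hΓ : IsMedian Γ) (h3 : NoThreeCube Γ) {r : ℤ × ℤ → V} (hr : LF Γ r)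
    (x y y' : ℤ) (n : ℕ) :
    Γ.dist (r (x, y)) (r (x + n, y')) = Γ.dist (r (x, y)) (r (x, y')) + n := by
  have h0 : Γ.dist (r (x, y)) (r (x, y)) < Γ.dist (r (x, y)) (r (x + 1, y)) := by
    rw [SimpleGraph.dist_self, (adj_iff _ _).2 (hr.hor x y)]
    exact Nat.one_pos
  have h1 := hr.par hΓ _ x y h0 y'
  induction n with
  | zero => simp
  | succ n ih =>
    have := hr.right hΓ h3 _ x y' h1 n
    rw [show x + ((n + 1 : ℕ) : ℤ) = x + n + 1 by push_cast; ring, this, ih]
    ring

/-- locally flat maps are flat -/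
theorem LF.flat (hΓ : IsMedian Γ) (h3 : NoThreeCube Γ) {r : ℤ × ℤ → V} (hr : LF Γ r) :
    IsFlat Γ r := by
  have col : ∀ x y y' : ℤ, Γ.dist (r (x, y)) (r (x, y')) = (y' - y).natAbs := by
    intro x y y'
    rcases le_total y y' with hl | hl
    · obtain ⟨n, hn⟩ := Int.eq_ofNat_of_zero_le (sub_nonneg.2 hl)
      have := hr.swap.row hΓ h3 y x n
      simp only [] at this
      rw [show y + (n : ℤ) = y' by omega] at this
      omega
    · obtain ⟨n, hn⟩ := Int.eq_ofNat_of_zero_le (sub_nonneg.2 hl)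
      have := hr.swap.row hΓ h3 y' x n
      simp only [] at this
      rw [show y' + (n : ℤ) = y by omega, dcomm] at this
      omega
  have key : ∀ x y x' y' : ℤ, x ≤ x' →
      Γ.dist (r (x, y)) (r (x', y')) = (x' - x).natAbs + (y' - y).natAbs := by
    intro x y x' y' hl
    obtain ⟨n, hn⟩ := Int.eq_ofNat_of_zero_le (sub_nonneg.2 hl)
    have := hr.quadrant hΓ h3 x y y' n
    rw [show x + (n : ℤ) = x' by omega, col] at this
    omega
  rintro ⟨x, y⟩ ⟨x', y'⟩
  simp only [Int.abs_eq_natAbs]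
  rcases le_total x x' with hl | hl
  · rw [key x y x' y' hl]
    omega
  · rw [dcomm, key x' y' x y hl]
    omega

/-- the upper half of `h` and the lower half of `k` -/
def glue (h k : ℤ × ℤ → V) (z : ℤ × ℤ) : V := if 0 ≤ z.2 then h z else k z

theorem glue_up {h k : ℤ × ℤ → V} {x y : ℤ} (hy : 0 ≤ y) : glue h k (x, y) = h (x, y) :=
  if_pos hy

theorem glue_down {h k : ℤ × ℤ → V} (h0 : ∀ x, h (x, 0) = k (x, 0)) {x y : ℤ} (hy : y ≤ 0) :
    glue h k (x, y) = k (x, y) := by
  rcases eq_or_lt_of_le hy with rfl | hy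
  · rw [glue_up le_rfl, h0]
  · exact if_neg (by simpa using hy)

/-- gluing of half-planes along their boundary lines -/
theorem glue_flat (hΓ : IsMedian Γ) (h3 : NoThreeCube Γ) {h k : ℤ × ℤ → V} (hh : IsFlat Γ h)
    (hk : IsFlat Γ k) (h0 : ∀ x, h (x, 0) = k (x, 0)) (x0 : ℤ) (h1 : h (x0, 1) ≠ k (x0, -1)) :
    IsFlat Γ (glue h k) := by
  have h1' : ∀ x, h (x, 1) ≠ k (x, -1) := by
    intro x hx
    exact h1 (row_prop hΓ hh hk.neg2 (y := 0) (y' := 1) (by simp) Set.ordConnected_univ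
      (fun x _ => by simpa using h0 x) (Set.mem_univ x) (by simpa using hx) x0 (Set.mem_univ _))
  have U : ∀ {x y : ℤ}, 0 ≤ y → glue h k (x, y) = h (x, y) := fun hy => glue_up hy
  have D : ∀ {x y : ℤ}, y ≤ 0 → glue h k (x, y) = k (x, y) := fun hy => glue_down h0 hy
  have inj : ∀ {p : ℤ × ℤ → V} (_ : IsFlat Γ p) {z w : ℤ × ℤ}, z ≠ w → p z ≠ p w :=
    fun hp _ _ hne h => hne (hp.inj h)
  apply LF.flat hΓ h3
  constructor
  · intro x y
    rcases le_total 0 y with hy | hy
    · rw [U hy, U hy]; exact hh.adj (by simp)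
    · rw [D hy, D hy]; exact hk.adj (by simp)
  · intro x y
    rcases le_or_gt 0 y with hy | hy
    · rw [U hy, U (by omega)]; exact hh.adj (by simp)
    · rw [D (by omega), D (by omega)]; exact hk.adj (by simp)
  · intro x y
    rcases le_total 0 y with hy | hy
    · rw [U hy, U hy]; exact inj hh (by simp)
    · rw [D hy, D hy]; exact inj hk (by simp)
  · intro x y
    rcases (show 0 ≤ y ∨ y = -1 ∨ y ≤ -2 by omega) with hy | rfl | hy
    · rw [U hy, U (by omega)]; exact inj hh (by simp)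
    · rw [D (by omega), U (by norm_num)]
      simpa using (h1' x).symm
    · rw [D (by omega), D (by omega)]; exact inj hk (by simp)
  · intro x y
    rcases le_or_gt 0 y with hy | hy
    · rw [U hy, U (by omega)]; exact inj hh (by simp)
    · rw [D (by omega), D (by omega)]; exact inj hk (by simp)
  · intro x y
    rcases le_or_gt 0 y with hy | hy
    · rw [U hy, U (by omega)]; exact inj hh (by simp)
    · rw [D (by omega), D (by omega)]; exact inj hk (by simp)

/-- two flats which agree on a lower half-plane and differ above meet exactly in it -/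
theorem meet (hΓ : IsMedian Γ) (h3 : NoThreeCube Γ) {h k : ℤ × ℤ → V} (hh : IsFlat Γ h)
    (hk : IsFlat Γ k) (h0 : ∀ x y, y ≤ 0 → h (x, y) = k (x, y)) (x0 : ℤ)
    (h1 : h (x0, 1) ≠ k (x0, 1)) (z w : ℤ × ℤ) : h z = k w ↔ z = w ∧ z.2 ≤ 0 := by
  have hr := glue_flat hΓ h3 hh hk.neg2 (fun x => by simpa using h0 x 0 le_rfl) x0
    (by simpa using h1)
  obtain ⟨x, y⟩ := z
  obtain ⟨x', y'⟩ := w
  constructor
  · intro e
    rcases le_or_gt y 0 with hy | hy
    · rw [h0 x y hy] at e
      exact ⟨hk.inj e, hy⟩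
    rcases le_or_gt y' 0 with hy' | hy'
    · rw [← h0 x' y' hy'] at e
      have := hh.inj e
      simp only [Prod.mk.injEq] at this
      omega
    exfalso
    have e2 : glue h (fun z => k (z.1, -z.2)) (x, y) =
        glue h (fun z => k (z.1, -z.2)) (x', -y') := by
      rw [glue_up hy.le, glue_down (fun x => by simpa using h0 x 0 le_rfl) (by omega)]
      simpa using e
    have := hr.inj e2
    simp only [Prod.mk.injEq] at this
    omega
  · rintro ⟨e, hy⟩
    rw [← e]
    exact h0 x y hy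

end Pool.Agent.H6.SQ
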