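import Pool.Agent.H6.SQ.Det

/-!
# Pairs of flats which separate along half-planes
-/

set_option autoImplicit false

namespace Pool.Agent.H6.SQ

open Function Set

variable {V : Type*} {G : Type*} [Group G] [MulAction G V] {Γ : SimpleGraph V}

/-- there are two flats which separate exactly at a horizontal line -/
theorem up_pair (hA : Act G Γ) {L : Set (ℤ × ℤ → V)} (hL : Sys G Γ L) (hne : L.Nonempty)
    (hZ : ¬ ∃ φ : Multiplicative (ℤ × ℤ) →* G, Injective φ) :
    ∃ h ∈ L, ∃ k ∈ L, (∀ x y : ℤ, y ≤ 0 → h (x, y) = k (x, y)) ∧ h (0, 1) ≠ k (0, 1) := by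
  obtain ⟨f, hf⟩ := hne
  have h1 : ∀ R : ℕ, ¬ DetUp L (R + 1) := fun R h => hZ (det_up hA hL (by omega) h hf)
  unfold DetUp at h1
  push Not at h1
  choose h hh k hk hag hne using h1
  obtain ⟨h', hh', k', hk', hlim⟩ := hL.limit hA h k hh hk
    (fun n => hag n 0 0 (by simp) (by push_cast; omega) le_rfl)
  refine ⟨h', hh', k', hk', fun x y hy => ?_, ?_⟩
  · obtain ⟨n, hn, g, hg⟩ := hlim (x.natAbs + y.natAbs) (x.natAbs + y.natAbs)
    obtain ⟨e1, e2⟩ := hg (x, y) (by simp only []; omega) (by simp only []; omega)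
    rw [e1, e2, hag n x y (by omega) (by push_cast; omega) hy]
  · obtain ⟨n, hn, g, hg⟩ := hlim 1 0
    obtain ⟨e1, e2⟩ := hg (0, 1) (by simp) (by simp)
    rw [e1, e2]
    exact fun h => hne n (smul_left_cancel g h)

end Pool.Agent.H6.SQ
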