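import Pool.Agent.H6.SQ.Flat

/-!
# Closed invariant families of flat planes
-/

set_option autoImplicit false

namespace Pool.Agent.H6.SQ

open Function Set

/-- cluster points of sequences of functions with values in finite sets -/
theorem cluster {ι W : Type*} [Countable ι] (F : ℕ → ι → W) (B : ι → Set W)
    (hB : ∀ i, (B i).Finite) (hF : ∀ n i, F n i ∈ B i) :
    ∃ f : ι → W, ∀ S : Set ι, S.Finite → ∀ N : ℕ, ∃ n, N ≤ n ∧ ∀ i ∈ S, F n i = f i := by
  let _ : TopologicalSpace W := ⊥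
  have _ : DiscreteTopology W := ⟨rfl⟩
  have hc : IsCompact (Set.pi Set.univ B) := isCompact_univ_pi fun i => (hB i).isCompact
  obtain ⟨f, -, φ, hφ, ht⟩ := hc.tendsto_subseq (x := F) fun n => by
    rw [Set.mem_univ_pi]; exact hF n
  refine ⟨f, fun S hS N => ?_⟩
  have h1 : ∀ i, ∀ᶠ n in Filter.atTop, F (φ n) i = f i := by
    intro i
    have := (tendsto_pi_nhds.1 ht) i
    rw [nhds_discrete, Filter.tendsto_pure] at this
    exact this
  have h2 : ∀ᶠ n in Filter.atTop, ∀ i ∈ S, F (φ n) i = f i :=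
    (Filter.eventually_all_finite hS).2 fun i _ => h1 i
  obtain ⟨n, hn1, hn2⟩ := (h2.and (Filter.eventually_ge_atTop N)).exists
  exact ⟨φ n, hn2.trans (hφ.id_le n), hn1⟩

theorem win_finite (R : ℕ) : {z : ℤ × ℤ | z.1.natAbs ≤ R ∧ z.2.natAbs ≤ R}.Finite := by
  refine ((Set.finite_Icc (-(R : ℤ)) R).prod (Set.finite_Icc (-(R : ℤ)) R)).subset ?_
  rintro z ⟨h1, h2⟩
  exact ⟨⟨by omega, by omega⟩, ⟨by omega, by omega⟩⟩

variable {V : Type*} {G : Type*} [Group G] [MulAction G V] {Γ : SimpleGraph V}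

/-- geometric actions on median graphs without 3-cubes -/
structure Act (G : Type*) [Group G] [MulAction G V] (Γ : SimpleGraph V) : Prop where
  med : IsMedian Γ
  n3 : NoThreeCube Γ
  fin : ∀ v, {w | Γ.Adj v w}.Finite
  aut : ∀ (g : G) (a b : V), Γ.Adj a b → Γ.Adj (g • a) (g • b)
  stab : ∀ v : V, {g : G | g • v = v}.Finite
  orb : ∃ K : Set V, K.Finite ∧ ∀ v : V, ∃ g : G, g • v ∈ K

theorem Act.dist_le (hA : Act G Γ) (g : G) (a b : V) : Γ.dist (g • a) (g • b) ≤ Γ.dist a b := by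
  obtain ⟨p, hp⟩ := (hA.med.1 a b).exists_walk_length_eq_dist
  let φ : Γ →g Γ := ⟨fun v => g • v, fun {a b} h => hA.aut g a b h⟩
  have := SimpleGraph.dist_le (p.map φ)
  rw [SimpleGraph.Walk.length_map, hp] at this
  exact this

theorem Act.dist (hA : Act G Γ) (g : G) (a b : V) : Γ.dist (g • a) (g • b) = Γ.dist a b := by
  apply le_antisymm (hA.dist_le g a b)
  have := hA.dist_le g⁻¹ (g • a) (g • b)
  simpa using this

theorem Act.ball (hA : Act G Γ) (n : ℕ) : ∀ v, {w | Γ.dist v w ≤ n}.Finite := by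
  induction n with
  | zero =>
    intro v
    refine (Set.finite_singleton v).subset fun w hw => ?_
    exact ((hA.med.eq_iff v w).1 (Nat.le_zero.1 hw)).symm
  | succ n ih =>
    intro v
    refine ((Set.finite_singleton v).union
      ((hA.fin v).biUnion fun u _ => ih u)).subset fun w hw => ?_
    obtain ⟨p, hp⟩ := (hA.med.1 v w).exists_walk_length_eq_dist
    cases p with
    | nil => exact Or.inl rfl
    | @cons _ u _ h p' =>
      right
      rw [Set.mem_iUnion₂]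
      refine ⟨u, h, ?_⟩
      have h1 := SimpleGraph.dist_le p'
      rw [SimpleGraph.Walk.length_cons] at hp
      simp only [Set.mem_ofPred_eq] at hw ⊢
      omega

theorem Act.ballK (hA : Act G Γ) {K : Set V} (hK : K.Finite) (n : ℕ) :
    {w | ∃ u ∈ K, Γ.dist u w ≤ n}.Finite := by
  refine (hK.biUnion fun u _ => hA.ball n u).subset fun w hw => ?_
  obtain ⟨u, hu, h⟩ := hw
  rw [Set.mem_iUnion₂]
  exact ⟨u, hu, h⟩

theorem IsFlat.smul (hA : Act G Γ) {f : ℤ × ℤ → V} (hf : IsFlat Γ f) (g : G) (b : ℤ × ℤ) :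
    IsFlat Γ (fun z => g • f (z + b)) := fun z w => by
  rw [hA.dist, hf]
  simp

theorem IsFlat.memball (hA : Act G Γ) {f : ℤ × ℤ → V} (hf : IsFlat Γ f) {K : Set V} {g : G}
    (hg : g • f 0 ∈ K) (z : ℤ × ℤ) :
    g • f z ∈ {w | ∃ u ∈ K, Γ.dist u w ≤ z.1.natAbs + z.2.natAbs} := by
  refine ⟨_, hg, ?_⟩
  rw [hA.dist]
  have := hf 0 z
  simp only [Prod.fst_zero, Prod.snd_zero, zero_sub, abs_neg, Int.abs_eq_natAbs] at this
  omega

/-- closed families of flats which are invariant under `G` and under translations -/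
structure Sys (G : Type*) [Group G] [MulAction G V] (Γ : SimpleGraph V)
    (L : Set (ℤ × ℤ → V)) : Prop where
  flat : ∀ h ∈ L, IsFlat Γ h
  mv : ∀ h ∈ L, ∀ (g : G) (b : ℤ × ℤ), (fun z => g • h (z + b)) ∈ L
  clo : ∀ h : ℤ × ℤ → V,
    (∀ R : ℕ, ∃ k ∈ L, ∀ z : ℤ × ℤ, z.1.natAbs ≤ R → z.2.natAbs ≤ R → h z = k z) → h ∈ L

/-- the limit flats of `f` -/
def Orb (G : Type*) [Group G] [MulAction G V] (f : ℤ × ℤ → V) : Set (ℤ × ℤ → V) :=
  {h | ∀ R : ℕ, ∃ (g : G) (b : ℤ × ℤ), ∀ z : ℤ × ℤ, z.1.natAbs ≤ R → z.2.natAbs ≤ R → h z = g • f (z + b)}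

theorem Orb.self (f : ℤ × ℤ → V) : f ∈ Orb G f := fun _ => ⟨1, 0, fun z _ _ => by simp⟩

theorem Orb.sys (hA : Act G Γ) {f : ℤ × ℤ → V} (hf : IsFlat Γ f) : Sys G Γ (Orb G f) where
  flat := by
    intro h hh z w
    obtain ⟨g, b, hg⟩ := hh (z.1.natAbs + z.2.natAbs + w.1.natAbs + w.2.natAbs)
    rw [hg z (by omega) (by omega), hg w (by omega) (by omega)]
    exact hf.smul hA g b z w
  mv := by
    intro h hh g b R
    obtain ⟨g', b', hg⟩ := hh (R + b.1.natAbs + b.2.natAbs)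
    refine ⟨g * g', b + b', fun z h1 h2 => ?_⟩
    have e1 : (z + b).1.natAbs ≤ R + b.1.natAbs + b.2.natAbs := by
      simp only [Prod.fst_add]
      omega
    have e2 : (z + b).2.natAbs ≤ R + b.1.natAbs + b.2.natAbs := by
      simp only [Prod.snd_add]
      omega
    simp only []
    rw [hg _ e1 e2, mul_smul, add_assoc]
  clo := by
    intro h hh R
    obtain ⟨k, hk, hk2⟩ := hh R
    obtain ⟨g, b, hg⟩ := hk R
    exact ⟨g, b, fun z h1 h2 => by rw [hk2 z h1 h2, hg z h1 h2]⟩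

theorem Sys.orb {L : Set (ℤ × ℤ → V)} (hL : Sys G Γ L) {f : ℤ × ℤ → V} (hf : f ∈ L) :
    Orb G f ⊆ L := by
  intro h hh
  apply hL.clo
  intro R
  obtain ⟨g, b, hg⟩ := hh R
  exact ⟨_, hL.mv f hf g b, hg⟩

/-- compactness for pairs of flats with the same base point -/
theorem Sys.limit (hA : Act G Γ) {L : Set (ℤ × ℤ → V)} (hL : Sys G Γ L) (h k : ℕ → ℤ × ℤ → V)
    (hh : ∀ n, h n ∈ L) (hk : ∀ n, k n ∈ L) (h0 : ∀ n, h n 0 = k n 0) :
    ∃ h' ∈ L, ∃ k' ∈ L, ∀ R N : ℕ, ∃ n, N ≤ n ∧ ∃ g : G, ∀ z : ℤ × ℤ, z.1.natAbs ≤ R → z.2.natAbs ≤ R →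
      h' z = g • h n z ∧ k' z = g • k n z := by
  obtain ⟨K, hK, hGK⟩ := hA.orb
  choose g hg using fun n => hGK (h n 0)
  obtain ⟨f, hf⟩ := cluster (fun n z => (g n • h n z, g n • k n z))
    (fun z : ℤ × ℤ => {w | ∃ u ∈ K, Γ.dist u w ≤ z.1.natAbs + z.2.natAbs} ×ˢ
      {w | ∃ u ∈ K, Γ.dist u w ≤ z.1.natAbs + z.2.natAbs})
    (fun z => (hA.ballK hK _).prod (hA.ballK hK _)) (fun n z =>
      ⟨(hL.flat _ (hh n)).memball hA (hg n) z,
        (hL.flat _ (hk n)).memball hA (by rw [← h0 n]; exact hg n) z⟩)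
  have key : ∀ R N : ℕ, ∃ n, N ≤ n ∧ ∀ z : ℤ × ℤ, z.1.natAbs ≤ R → z.2.natAbs ≤ R →
      (f z).1 = g n • h n z ∧ (f z).2 = g n • k n z := by
    intro R N
    obtain ⟨n, hn, hn2⟩ := hf _ (win_finite R) N
    refine ⟨n, hn, fun z h1 h2 => ?_⟩
    rw [← hn2 z ⟨h1, h2⟩]
    exact ⟨rfl, rfl⟩
  refine ⟨fun z => (f z).1, ?_, fun z => (f z).2, ?_, ?_⟩
  · apply hL.clo
    intro R
    obtain ⟨n, _, hn⟩ := key R 0
    exact ⟨_, hL.mv _ (hh n) (g n) 0, fun z h1 h2 => by simpa using (hn z h1 h2).1⟩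
  · apply hL.clo
    intro R
    obtain ⟨n, _, hn⟩ := key R 0
    exact ⟨_, hL.mv _ (hk n) (g n) 0, fun z h1 h2 => by simpa using (hn z h1 h2).2⟩
  · intro R N
    obtain ⟨n, hn, hn2⟩ := key R N
    exact ⟨n, hn, g n, hn2⟩

/-- minimal systems -/
structure IsMin (G : Type*) [Group G] [MulAction G V] (Γ : SimpleGraph V)
    (L : Set (ℤ × ℤ → V)) : Prop where
  sys : Sys G Γ L
  ne : L.Nonempty
  min : ∀ h ∈ L, L ⊆ Orb G h

theorem Sys.exists_min (hA : Act G Γ) {L : Set (ℤ × ℤ → V)} (hL : Sys G Γ L)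
    (hne : L.Nonempty) : ∃ M ⊆ L, IsMin G Γ M := by
  classical
  let _ : TopologicalSpace V := ⊥
  have _ : DiscreteTopology V := ⟨rfl⟩
  obtain ⟨K, hK, hGK⟩ := hA.orb
  have hC : IsCompact (Set.pi Set.univ
      (fun z : ℤ × ℤ => {w | ∃ u ∈ K, Γ.dist u w ≤ z.1.natAbs + z.2.natAbs})) :=
    isCompact_univ_pi fun z => (hA.ballK hK _).isCompact
  set C := Set.pi Set.univ
      (fun z : ℤ × ℤ => {w | ∃ u ∈ K, Γ.dist u w ≤ z.1.natAbs + z.2.natAbs}) with hCdef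
  have hmeet : ∀ M : Set (ℤ × ℤ → V), Sys G Γ M → M.Nonempty → (M ∩ C).Nonempty := by
    rintro M hM ⟨h, hh⟩
    obtain ⟨g, hg⟩ := hGK (h 0)
    refine ⟨fun z => g • h z, by simpa using hM.mv h hh g 0, ?_⟩
    rw [hCdef, Set.mem_univ_pi]
    exact fun z => (hM.flat h hh).memball hA hg z
  have hclosed : ∀ M : Set (ℤ × ℤ → V), Sys G Γ M → IsClosed M := by
    intro M hM
    rw [← closure_subset_iff_isClosed]
    intro h hh
    apply hM.clo
    intro R
    rw [mem_closure_iff] at hh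
    obtain ⟨k, hk1, hk2⟩ := hh (⋂ z ∈ {z : ℤ × ℤ | z.1.natAbs ≤ R ∧ z.2.natAbs ≤ R}, {k | k z = h z})
      ((win_finite R).isOpen_biInter fun z _ => by
        have := (isOpen_discrete {h z}).preimage (continuous_apply (A := fun _ : ℤ × ℤ => V) z)
        exact this) (by simp)
    refine ⟨k, hk2, fun z h1 h2 => ?_⟩
    rw [Set.mem_iInter₂] at hk1
    exact (hk1 z ⟨h1, h2⟩).symm
  obtain ⟨M, hM⟩ := zorn_superset {M : Set (ℤ × ℤ → V) | Sys G Γ M ∧ M.Nonempty ∧ M ⊆ L} (by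
    intro c hc hchain
    rcases c.eq_empty_or_nonempty with rfl | hcne
    · exact ⟨L, ⟨hL, hne, subset_rfl⟩, by simp⟩
    · refine ⟨⋂₀ c, ⟨⟨?_, ?_, ?_⟩, ?_, ?_⟩, fun s hs => Set.sInter_subset_of_mem hs⟩
      · intro h hh
        obtain ⟨M, hM⟩ := hcne
        exact (hc hM).1.flat h (hh M hM)
      · intro h hh g b M hM
        exact (hc hM).1.mv h (hh M hM) g b
      · intro h hh M hM
        refine (hc hM).1.clo h fun R => ?_
        obtain ⟨k, hk, hk2⟩ := hh R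
        exact ⟨k, hk M hM, hk2⟩
      · have _ : Nonempty c := hcne.to_subtype
        have := IsCompact.nonempty_iInter_of_directed_nonempty_isCompact_isClosed
          (fun M : c => M.1 ∩ C) (by
            intro M N
            rcases hchain.total M.2 N.2 with h | h
            · exact ⟨M, subset_rfl, Set.inter_subset_inter_left _ h⟩
            · exact ⟨N, Set.inter_subset_inter_left _ h, subset_rfl⟩)
          (fun M => hmeet _ (hc M.2).1 (hc M.2).2.1)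
          (fun M => hC.inter_left (hclosed _ (hc M.2).1))
          (fun M => (hclosed _ (hc M.2).1).inter hC.isClosed)
        obtain ⟨h, hh⟩ := this
        refine ⟨h, fun M hM => ?_⟩
        rw [Set.mem_iInter] at hh
        exact (hh ⟨M, hM⟩).1
      · obtain ⟨M, hM⟩ := hcne
        exact (Set.sInter_subset_of_mem hM).trans (hc hM).2.2)
  refine ⟨M, hM.prop.2.2, hM.prop.1, hM.prop.2.1, fun h hh => ?_⟩
  have h1 := hM.prop.1.orb hh
  exact hM.le_of_le (y := Orb G h) ⟨Orb.sys hA (hM.prop.1.flat h hh), ⟨h, Orb.self h⟩,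
    h1.trans hM.prop.2.2⟩ h1

/-- recurrence in minimal systems -/
theorem IsMin.recur (hA : Act G Γ) {L : Set (ℤ × ℤ → V)} (hL : IsMin G Γ L) {h k : ℤ × ℤ → V}
    (hh : h ∈ L) (hk : k ∈ L) (S : ℕ) :
    ∃ n : ℕ, ∀ b : ℤ × ℤ, ∃ b' : ℤ × ℤ, (b'.1 - b.1).natAbs ≤ n ∧ (b'.2 - b.2).natAbs ≤ n ∧
      ∃ g : G, ∀ z : ℤ × ℤ, z.1.natAbs ≤ S → z.2.natAbs ≤ S → g • h (z + b') = k z := by
  by_contra hcon
  push Not at hcon
  choose b hb using hcon
  obtain ⟨h', hh', _, _, hlim⟩ := hL.sys.limit hA (fun n z => h (z + b n))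
    (fun n z => h (z + b n)) (fun n => by simpa using hL.sys.mv h hh 1 (b n))
    (fun n => by simpa using hL.sys.mv h hh 1 (b n)) (fun _ => rfl)
  obtain ⟨g', b', hg'⟩ := hL.min h' hh' hk S
  obtain ⟨n, hn, g, hg⟩ := hlim (S + b'.1.natAbs + b'.2.natAbs) (b'.1.natAbs + b'.2.natAbs)
  obtain ⟨z, hz1, hz2, hz3⟩ := hb n (b' + b n) (by simp only [Prod.fst_add]; omega)
    (by simp only [Prod.snd_add]; omega) (g' * g)
  apply hz3
  rw [hg' z hz1 hz2, (hg (z + b') (by simp only [Prod.fst_add]; omega)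
    (by simp only [Prod.snd_add]; omega)).1, mul_smul, add_assoc]

end Pool.Agent.H6.SQ
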